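import Pool.Agent.Y47.FDF.An

/-!
# Fon-der-Flaass 3-graphs of oriented graphs with few triangles

For every oriented graph on `n` vertices without an induced oriented 4-cycle and with `T` triangles
in the underlying graph, the Fon-der-Flaass 3-graph misses at most `(9/100) n³ + 22 T` triples. So
its density is at least `0.46 - o(1)` if there are `o(n³)` triangles, and at least `4/9` if
`n ≥ 1000` and `7500 T ≤ n³`.
-/

set_option autoImplicit false

namespace Pool.Agent.Results.MP_8cac16_co.FewTriangles

open Finset Pool.Agent.Y47.FDF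

/-- `R` is (the arc relation of) an oriented graph: no loops, at most one arc per pair. -/
def IsOriented {n : ℕ} (R : Fin n → Fin n → Prop) : Prop :=
  ∀ u v, R u v → ¬ R v u

/-- The oriented graph has no induced oriented 4-cycle `a → b → c → d → a` (the four vertices are
automatically distinct in an oriented graph). -/
def NoInducedC4 {n : ℕ} (R : Fin n → Fin n → Prop) : Prop :=
  ¬ ∃ a b c d : Fin n, R a b ∧ R b c ∧ R c d ∧ R d a ∧ ¬ R a c ∧ ¬ R c a ∧ ¬ R b d ∧ ¬ R d b

open Classical in
/-- The Fon-der-Flaass 3-graph: the triples with a vertex which has no arc to or from the other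
two, or with a vertex which has arcs to both others. -/
noncomputable def fdf {n : ℕ} (R : Fin n → Fin n → Prop) : Finset (Finset (Fin n)) :=
  (Finset.univ.powersetCard 3).filter fun s : Finset (Fin n) =>
    ∃ x ∈ s, (∀ y ∈ s, y ≠ x → (¬ R x y ∧ ¬ R y x)) ∨ (∀ y ∈ s, y ≠ x → R x y)

open Classical in
/-- The triangles of the underlying graph: the triples of vertices which are pairwise joined by
arcs (in any direction). -/
noncomputable def triangles {n : ℕ} (R : Fin n → Fin n → Prop) : Finset (Finset (Fin n)) :=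
  (Finset.univ.powersetCard 3).filter fun s : Finset (Fin n) =>
    ∀ x ∈ s, ∀ y ∈ s, x ≠ y → (R x y ∨ R y x)

open Classical in
/-- the indicator function of the arcs -/
noncomputable def ind {n : ℕ} (R : Fin n → Fin n → Prop) (x y : Fin n) : ℝ := if R x y then 1 else 0

theorem ind1 {n : ℕ} {R : Fin n → Fin n → Prop} {x y : Fin n} (h : R x y) : ind R x y = 1 := by
  simp [ind, h]

theorem ind0 {n : ℕ} {R : Fin n → Fin n → Prop} {x y : Fin n} (h : ¬ R x y) : ind R x y = 0 := by
  simp [ind, h]

theorem e1 {n : ℕ} {R : Fin n → Fin n → Prop} (ho : IsOriented R) {x y : Fin n}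
    (h : R x y ∨ R y x) : e (ind R) x y = 1 := by
  unfold e
  rcases h with h | h
  · rw [ind1 h, ind0 (ho _ _ h)]; norm_num
  · rw [ind1 h, ind0 (ho _ _ h)]; norm_num

theorem e0 {n : ℕ} {R : Fin n → Fin n → Prop} {x y : Fin n}
    (h : ¬ (R x y ∨ R y x)) : e (ind R) x y = 0 := by
  unfold e
  rw [not_or] at h
  rw [ind0 h.1, ind0 h.2]; norm_num

theorem good {n : ℕ} {R : Fin n → Fin n → Prop} (ho : IsOriented R) (hC : NoInducedC4 R) :
    Good (ind R) := by
  refine ⟨fun x y => ?_, fun x y => ?_, fun x y x' y' h1 h2 h3 h4 => ?_⟩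
  · by_cases h : R x y
    · exact Or.inr (ind1 h)
    · exact Or.inl (ind0 h)
  · by_cases h : R x y
    · exact Or.inr (ind0 (ho _ _ h))
    · exact Or.inl (ind0 h)
  · have k : ∀ u v, ind R u v = 1 → R u v := by
      intro u v h
      by_contra hn
      rw [ind0 hn] at h
      exact zero_ne_one h
    by_contra hcon
    rw [not_or] at hcon
    apply hC
    refine ⟨x, y, x', y', k _ _ h1, k _ _ h2, k _ _ h3, k _ _ h4, ?_⟩
    have c1 : ¬ (R x x' ∨ R x' x) := fun h => hcon.1 (e1 ho h)
    have c2 : ¬ (R y y' ∨ R y' y) := fun h => hcon.2 (e1 ho h)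
    rw [not_or] at c1 c2
    exact ⟨c1.1, c1.2, c2.1, c2.2⟩

/-! ### Triangles -/

theorem tau_le {n : ℕ} (R : Fin n → Fin n → Prop) (ho : IsOriented R) :
    tau (ind R) ≤ 3 * ((triangles R).card : ℝ) := by
  classical
  let U : Finset (Fin n × Fin n × Fin n) := Finset.univ.filter fun p =>
    R p.1 p.2.1 ∧ (R p.1 p.2.2 ∨ R p.2.2 p.1) ∧ (R p.2.2 p.2.1 ∨ R p.2.1 p.2.2)
  have h1 : tau (ind R) = (U.card : ℝ) := by
    have h2 : ∀ x y z : Fin n, ind R x y * (e (ind R) x z * e (ind R) z y) =
        if (x, y, z) ∈ U then 1 else 0 := by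
      intro x y z
      simp only [U, mem_filter, mem_univ, true_and]
      by_cases a1 : R x y
      · by_cases a2 : R x z ∨ R z x
        · by_cases a3 : R z y ∨ R y z
          · rw [ind1 a1, e1 ho a2, e1 ho a3, if_pos ⟨a1, a2, a3⟩]; norm_num
          · rw [e0 a3, if_neg fun h => a3 h.2.2]; ring
        · rw [e0 a2, if_neg fun h => a2 h.2.1]; ring
      · rw [ind0 a1, if_neg fun h => a1 h.1]; ring
    calc tau (ind R) = ∑ x, ∑ y, ∑ z, ind R x y * (e (ind R) x z * e (ind R) z y) := by
          simp only [tau, t, mul_sum]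
      _ = ∑ x, ∑ y, ∑ z, (if (x, y, z) ∈ U then (1 : ℝ) else 0) := by
          simp only [h2]
      _ = ∑ p : Fin n × Fin n × Fin n, (if p ∈ U then (1 : ℝ) else 0) := by
          rw [Fintype.sum_prod_type]
          refine sum_congr rfl fun x _ => ?_
          rw [Fintype.sum_prod_type]
      _ = (U.card : ℝ) := by simp
  rw [h1]
  have irr : ∀ x, ¬ R x x := fun x h => ho x x h h
  let f : Fin n × Fin n × Fin n → Finset (Fin n) := fun p => {p.1, p.2.1, p.2.2}
  have hne : ∀ p ∈ U, p.1 ≠ p.2.1 ∧ p.1 ≠ p.2.2 ∧ p.2.1 ≠ p.2.2 := by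
    rintro ⟨x, y, z⟩ hp
    simp only [U, mem_filter, mem_univ, true_and] at hp
    obtain ⟨a1, a2, a3⟩ := hp
    refine ⟨?_, ?_, ?_⟩
    · intro h
      simp only at h
      subst h
      exact irr _ a1
    · intro h
      simp only at h
      subst h
      exact a2.elim (irr _) (irr _)
    · intro h
      simp only at h
      subst h
      exact a3.elim (irr _) (irr _)
  have hmap : ∀ p ∈ U, f p ∈ triangles R := by
    intro p hp
    obtain ⟨n1, n2, n3⟩ := hne p hp
    rcases p with ⟨x, y, z⟩
    simp only [U, mem_filter, mem_univ, true_and] at hp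
    simp only at n1 n2 n3
    obtain ⟨a1, a2, a3⟩ := hp
    simp only [triangles, mem_filter, mem_powersetCard, f]
    refine ⟨⟨subset_univ _, card_eq_three.mpr ⟨x, y, z, n1, n2, n3, rfl⟩⟩, ?_⟩
    intro u hu v hv huv
    simp only [mem_insert, mem_singleton] at hu hv
    rcases hu with rfl | rfl | rfl <;> rcases hv with rfl | rfl | rfl <;> tauto
  have hcard : U.card ≤ 3 * (triangles R).card := by
    refine card_le_mul_card_image_of_maps_to hmap 3 ?_
    intro s hs
    have hs3 : s.card = 3 := (mem_powersetCard.mp (mem_filter.mp hs).1).2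
    rw [← hs3]
    refine card_le_card_of_injOn (fun p => p.2.2) ?_ ?_
    · intro p hp
      rw [mem_coe, mem_filter] at hp
      have : p.2.2 ∈ f p := by simp [f]
      rw [hp.2] at this
      exact this
    · rintro ⟨x, y, z⟩ hp ⟨x', y', z'⟩ hp' hz
      rw [mem_coe, mem_filter] at hp hp'
      obtain ⟨n1, n2, n3⟩ := hne _ hp.1
      obtain ⟨m1, m2, m3⟩ := hne _ hp'.1
      have q1 := hp.1
      have q2 := hp'.1
      simp only [U, mem_filter, mem_univ, true_and] at q1 q2
      have heq : f (x, y, z) = f (x', y', z') := hp.2.trans hp'.2.symm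
      simp only at hz n1 n2 n3 m1 m2 m3
      subst hz
      have hx : x ∈ f (x', y', z) := by rw [← heq]; simp [f]
      have hy : y ∈ f (x', y', z) := by rw [← heq]; simp [f]
      simp only [f, mem_insert, mem_singleton] at hx hy
      rcases hx with rfl | rfl | rfl
      · rcases hy with rfl | rfl | rfl
        · exact absurd rfl n1
        · rfl
        · exact absurd rfl n3
      · rcases hy with rfl | rfl | rfl
        · exact absurd q2.1 (ho _ _ q1.1)
        · exact absurd rfl n1
        · exact absurd rfl n3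
      · exact absurd rfl n2
  exact_mod_cast hcard

/-! ### The triples which are not edges -/

theorem count {n : ℕ} (R : Fin n → Fin n → Prop) (ho : IsOriented R) :
    2 * (((n.choose 3 : ℕ) : ℝ) - ((fdf R).card : ℝ)) ≤
      ∑ x, dg (ind R) x ^ 2 - ∑ x, o (ind R) x ^ 2 := by
  classical
  let S : Finset (Fin n × Fin n × Fin n) := Finset.univ.filter fun p =>
    (R p.1 p.2.1 ∨ R p.2.1 p.1) ∧ (R p.1 p.2.2 ∨ R p.2.2 p.1) ∧ ¬ (R p.1 p.2.1 ∧ R p.1 p.2.2)
  let H : Finset (Finset (Fin n)) := (Finset.univ.powersetCard 3) \ fdf R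
  have hH : (H.card : ℝ) = ((n.choose 3 : ℕ) : ℝ) - ((fdf R).card : ℝ) := by
    have h1 : fdf R ⊆ Finset.univ.powersetCard 3 := filter_subset _ _
    have h2 := card_sdiff_add_card_eq_card h1
    rw [card_powersetCard, card_univ, Fintype.card_fin] at h2
    have h3 : ((H.card + (fdf R).card : ℕ) : ℝ) = ((n.choose 3 : ℕ) : ℝ) := by rw [h2]
    push_cast at h3
    linarith
  have hS : (S.card : ℝ) = ∑ x, dg (ind R) x ^ 2 - ∑ x, o (ind R) x ^ 2 := by
    have h2 : ∀ x y z : Fin n, e (ind R) x y * e (ind R) x z - ind R x y * ind R x z =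
        if (x, y, z) ∈ S then 1 else 0 := by
      intro x y z
      simp only [S, mem_filter, mem_univ, true_and]
      by_cases a2 : R x y ∨ R y x
      · by_cases a3 : R x z ∨ R z x
        · by_cases a4 : R x y ∧ R x z
          · rw [e1 ho a2, e1 ho a3, ind1 a4.1, ind1 a4.2, if_neg fun h => h.2.2 a4]; norm_num
          · rw [e1 ho a2, e1 ho a3, if_pos ⟨a2, a3, a4⟩]
            rw [not_and_or] at a4
            rcases a4 with a4 | a4 <;> rw [ind0 a4] <;> norm_num
        · have a5 : ¬ R x z := fun h => a3 (Or.inl h)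
          rw [e0 a3, ind0 a5, if_neg fun h => a3 h.2.1]; ring
      · have a5 : ¬ R x y := fun h => a2 (Or.inl h)
        rw [e0 a2, ind0 a5, if_neg fun h => a2 h.1]; ring
    have h3 : ∀ x, dg (ind R) x ^ 2 - o (ind R) x ^ 2 =
        ∑ y, ∑ z, (e (ind R) x y * e (ind R) x z - ind R x y * ind R x z) := by
      intro x
      rw [← sum_e, o, pow_two, pow_two, sum_mul_sum, sum_mul_sum, ← sum_sub_distrib]
      refine sum_congr rfl fun y _ => ?_
      rw [← sum_sub_distrib]
    rw [← sum_sub_distrib, sum_congr rfl fun x _ => h3 x]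
    simp only [h2]
    calc (S.card : ℝ) = ∑ p : Fin n × Fin n × Fin n, (if p ∈ S then (1 : ℝ) else 0) := by simp
      _ = _ := by
          rw [Fintype.sum_prod_type]
          refine sum_congr rfl fun x _ => ?_
          rw [Fintype.sum_prod_type]
  rw [← hH, ← hS]
  let f : Fin n × Fin n × Fin n → Finset (Fin n) := fun p => {p.1, p.2.1, p.2.2}
  have hfib : ∀ s ∈ H, 2 ≤ ((S.filter fun p => f p ∈ H).filter fun p => f p = s).card := by
    intro s hs
    have hs' := hs
    rw [mem_sdiff, mem_powersetCard] at hs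
    obtain ⟨⟨-, h3⟩, hn⟩ := hs
    obtain ⟨p, q, r, hpq, hpr, hqr, rfl⟩ := card_eq_three.mp h3
    have hn' : ¬ ∃ x ∈ ({p, q, r} : Finset (Fin n)),
        (∀ y ∈ ({p, q, r} : Finset (Fin n)), y ≠ x → (¬ R x y ∧ ¬ R y x)) ∨
        (∀ y ∈ ({p, q, r} : Finset (Fin n)), y ≠ x → R x y) := by
      intro h
      exact hn (mem_filter.mpr ⟨mem_powersetCard.mpr ⟨subset_univ _, h3⟩, h⟩)
    -- a centre
    have main : ∀ c u v : Fin n, c ≠ u → c ≠ v → u ≠ v → ({c, u, v} : Finset (Fin n)) = {p, q, r} →
        (R c u ∨ R u c) → (R c v ∨ R v c) → ¬ (R c u ∧ R c v) →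
        2 ≤ ((S.filter fun x => f x ∈ H).filter fun x => f x = {p, q, r}).card := by
      intro c u v n1 n2 n3 hset a1 a2 a3
      have hset' : ({c, v, u} : Finset (Fin n)) = {p, q, r} := by
        rw [← hset]
        ext x; simp only [mem_insert, mem_singleton]; tauto
      have k : ({(c, u, v), (c, v, u)} : Finset (Fin n × Fin n × Fin n)) ⊆
          ((S.filter fun x => f x ∈ H).filter fun x => f x = {p, q, r}) := by
        intro x hx
        simp only [mem_insert, mem_singleton] at hx
        rcases hx with rfl | rfl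
        · simp only [mem_filter, S, mem_univ, true_and, f]
          refine ⟨⟨⟨a1, a2, a3⟩, ?_⟩, hset⟩
          rw [hset]; exact hs'
        · simp only [mem_filter, S, mem_univ, true_and, f]
          refine ⟨⟨⟨a2, a1, fun h => a3 ⟨h.2, h.1⟩⟩, ?_⟩, hset'⟩
          rw [hset']; exact hs'
      refine le_trans ?_ (card_le_card k)
      rw [card_pair]
      intro h
      simp only [Prod.mk.injEq, true_and] at h
      exact n3 h.1
    have ap : ∀ x y z : Fin n, x ≠ y → x ≠ z → ({x, y, z} : Finset (Fin n)) = {p, q, r} →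
        (R x y ∨ R y x ∨ R x z ∨ R z x) ∧ ¬ (R x y ∧ R x z) := by
      intro x y z hxy hxz hset
      constructor
      · by_contra hcon
        apply hn'
        rw [← hset]
        refine ⟨x, by simp, Or.inl ?_⟩
        intro w hw hwx
        simp only [mem_insert, mem_singleton] at hw
        rcases hw with rfl | rfl | rfl
        · exact absurd rfl hwx
        · exact ⟨fun h => hcon (Or.inl h), fun h => hcon (Or.inr (Or.inl h))⟩
        · exact ⟨fun h => hcon (Or.inr (Or.inr (Or.inl h))),
            fun h => hcon (Or.inr (Or.inr (Or.inr h)))⟩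
      · rintro ⟨h1, h2⟩
        apply hn'
        rw [← hset]
        refine ⟨x, by simp, Or.inr ?_⟩
        intro w hw hwx
        simp only [mem_insert, mem_singleton] at hw
        rcases hw with rfl | rfl | rfl
        · exact absurd rfl hwx
        · exact h1
        · exact h2
    have sq : ({q, p, r} : Finset (Fin n)) = {p, q, r} := by
      ext x; simp only [mem_insert, mem_singleton]; tauto
    have sr : ({r, p, q} : Finset (Fin n)) = {p, q, r} := by
      ext x; simp only [mem_insert, mem_singleton]; tauto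
    have Ap := ap p q r hpq hpr rfl
    have Aq := ap q p r hpq.symm hqr sq
    have Ar := ap r p q hpr.symm hqr.symm sr
    by_cases b1 : R p q ∨ R q p
    · by_cases b2 : R p r ∨ R r p
      · exact main p q r hpq hpr hqr rfl b1 b2 Ap.2
      · have c1 : R q r ∨ R r q := by
          rcases Ar.1 with h | h | h | h
          · exact absurd (Or.inr h) b2
          · exact absurd (Or.inl h) b2
          · exact Or.inr h
          · exact Or.inl h
        exact main q p r hpq.symm hqr hpr sq b1.symm c1 Aq.2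
    · have c1 : R r p ∨ R p r := by
        rcases Ap.1 with h | h | h | h
        · exact absurd (Or.inl h) b1
        · exact absurd (Or.inr h) b1
        · exact Or.inr h
        · exact Or.inl h
      have c2 : R r q ∨ R q r := by
        rcases Aq.1 with h | h | h | h
        · exact absurd (Or.inr h) b1
        · exact absurd (Or.inl h) b1
        · exact Or.inr h
        · exact Or.inl h
      exact main r p q hpr.symm hqr.symm hpq sr c1 c2 Ar.2
  have hle : 2 * H.card ≤ S.card := by
    have h1 : (S.filter fun p => f p ∈ H).card =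
        ∑ s ∈ H, ((S.filter fun p => f p ∈ H).filter fun p => f p = s).card :=
      card_eq_sum_card_fiberwise fun p hp => (mem_filter.mp hp).2
    have h2 : ∑ s ∈ H, 2 ≤ ∑ s ∈ H, ((S.filter fun p => f p ∈ H).filter fun p => f p = s).card :=
      sum_le_sum hfib
    have h3 : (S.filter fun p => f p ∈ H).card ≤ S.card := card_filter_le _ _
    rw [sum_const, smul_eq_mul] at h2
    omega
  exact_mod_cast hle

/-- **Fon-der-Flaass 3-graphs of oriented graphs with few triangles.** -/
theorem result :
    (∀ (n : ℕ) (R : Fin n → Fin n → Prop), IsOriented R → NoInducedC4 R →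
      ((n.choose 3 : ℕ) : ℝ) - ((fdf R).card : ℝ) ≤
        9 / 100 * (n : ℝ) ^ 3 + 22 * ((triangles R).card : ℝ)) ∧
    (∀ (n : ℕ) (R : Fin n → Fin n → Prop), 1000 ≤ n → IsOriented R → NoInducedC4 R →
      7500 * (triangles R).card ≤ n ^ 3 →
      4 / 9 * ((n.choose 3 : ℕ) : ℝ) ≤ ((fdf R).card : ℝ)) := by
  have key : ∀ (n : ℕ) (R : Fin n → Fin n → Prop), 0 < n → IsOriented R → NoInducedC4 R →
      ((n.choose 3 : ℕ) : ℝ) - ((fdf R).card : ℝ) ≤
        179 / 2000 * (n : ℝ) ^ 3 + 675 / 32 * ((triangles R).card : ℝ) := by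
    intro n R hn ho hC
    have h1 := count R ho
    have h2 := analytic (good ho hC) (by rw [Fintype.card_fin]; exact hn)
    have h3 := tau_le R ho
    rw [Fintype.card_fin] at h2
    linarith
  refine ⟨fun n R ho hC => ?_, fun n R hn ho hC hT => ?_⟩
  · rcases Nat.eq_zero_or_pos n with rfl | hn
    · have h1 : (0 : ℝ) ≤ ((fdf R).card : ℝ) := Nat.cast_nonneg _
      have h2 : (0 : ℝ) ≤ ((triangles R).card : ℝ) := Nat.cast_nonneg _
      simp
    · have h1 := key n R hn ho hC
      have h2 : (0 : ℝ) ≤ ((triangles R).card : ℝ) := Nat.cast_nonneg _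
      have h3 : (0 : ℝ) ≤ (n : ℝ) ^ 3 := by positivity
      linarith
  · have h1 := key n R (by omega) ho hC
    have hT' : (7500 : ℝ) * ((triangles R).card : ℝ) ≤ (n : ℝ) ^ 3 := by exact_mod_cast hT
    have hn' : (1000 : ℝ) ≤ (n : ℝ) := by exact_mod_cast hn
    have hch : ((n.choose 3 : ℕ) : ℝ) = (n : ℝ) * (n - 1) * (n - 2) / 6 := by
      have h1 : n.choose 3 * 6 = n * (n - 1) * (n - 2) := by
        have := Nat.descFactorial_eq_factorial_mul_choose n 3
        have h2 : n.descFactorial 3 = (n - 2) * ((n - 1) * n) := by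
          simp [Nat.descFactorial]
        rw [h2] at this
        have h3 : Nat.factorial 3 = 6 := rfl
        rw [h3] at this
        linarith
      have h4 : ((n.choose 3 * 6 : ℕ) : ℝ) = ((n * (n - 1) * (n - 2) : ℕ) : ℝ) := by rw [h1]
      push_cast [Nat.cast_sub (show 1 ≤ n by omega), Nat.cast_sub (show 2 ≤ n by omega)] at h4
      linarith
    have h5 : (1000 : ℝ) * (n : ℝ) ^ 2 ≤ (n : ℝ) ^ 3 := by
      have : (0 : ℝ) ≤ (n : ℝ) ^ 2 * ((n : ℝ) - 1000) := by
        apply mul_nonneg (by positivity); linarith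
      nlinarith
    have h6 : (0 : ℝ) ≤ (n : ℝ) := by linarith
    rw [hch] at h1 ⊢
    nlinarith

end Pool.Agent.Results.MP_8cac16_co.FewTriangles
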